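import Pool.Agent.H367R3.S35.D3125

/-! Kernel checks for `S(3,5,3125)`. -/

namespace Pool.Agent.H367R3.S35L

open Finset Pool.Agent.H816R2.S35

set_option maxRecDepth 1000000

theorem c1 : okTbl tc55 tb3125 3124 = true := by decide +kernel

theorem c2 : addBits ((List.range 3124).map (dig tb3125)) 1 = 2 ^ 3125 - 1 := by decide +kernel

theorem c3 : (decide (0 < 781) && [0, 1, 2, 3, 4].contains 0 && [0, 1, 2, 3, 4].contains 1 &&
      ((difs 3124 [0, 781, 1562, 2343]).all fun k => [0, 1, 2, 3, 4].contains (dig tb3125 k)) &&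
      ((iter tc55 781 [0, 1, 2, 3, 4]).all fun y => [0, 1, 2, 3, 4].contains y)) = true := by
  decide +kernel

theorem c4 : (((bs3125.flatMap (ptd cs55)).zip lg3125).all fun p => p.2.all fun l =>
      decide (l < 3124) && p.1.contains (dig tb3125 l)) = true := by decide +kernel

theorem c5 : covL 3124 (((bs3125.flatMap (ptd cs55)).zip lg3125).map Prod.snd)
      (addBits (difs 3124 [0, 781, 1562, 2343]) 0) = 2 ^ 3124 - 1 := by decide +kernel

theorem c6 : okCl 3125 (clOf cs55 3124 781 [0, 1, 2, 3, 4] bs3125) = true := by decide +kernel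

theorem c7 : okTr cs55 (clOf cs55 3124 781 [0, 1, 2, 3, 4] bs3125) = true := by decide +kernel

theorem c8 : 12 * cnt (clOf cs55 3124 781 [0, 1, 2, 3, 4] bs3125) = (3125 - 1) * (3125 - 2) := by
  decide +kernel

theorem ex3125 : ∃ 𝓑 : Set (Finset (Fin (3124 + 1))), IsS35 (Fin (3124 + 1)) 𝓑 := by
  have h := of_logs th55 3124 (by norm_num) 3125 (by simp [X55]) el55 tc55 cs55 hsurj55 hinj55 rfl
    (by norm_num) hth55 hcs55 tb3125 781 [0, 1, 2, 3, 4] [0, 781, 1562, 2343] bs3125 lg3125
    c1 c2 c3 c4 c5 c6 c7 c8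
  exact transport (Fintype.equivFinOfCardEq (by simp [X55])) h

end Pool.Agent.H367R3.S35L
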