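import Pool.Agent.H816R2.S35Mul4
import Pool.Agent.H816R2.S35Cyc

/-!
A Steiner system `S(3,5,26)` invariant under `x ↦ x + 1` and `x ↦ 15 * x` modulo `26`.
-/

namespace Pool.Agent.H367R3.S35L

open Pool.Agent.H816R2.S35

def cl26 : List (ℕ × List (List ℕ)) :=
  ([(4, [0, 13, 14, 16, 22]),
    (6, [0, 14, 12, 3, 23])] : List (ℕ × List ℕ)).map fun c => pointed 26 c.1 c.2

theorem ex26 : ∃ 𝓑 : Set (Finset (Fin (25 + 1))), IsS35 (Fin (25 + 1)) 𝓑 := by
  have h := of_cyc 26 15 12 (by norm_num) (by decide +kernel) cl26 (by decide +kernel)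
    (by decide +kernel) (by decide +kernel) (by decide +kernel) [1, 2, 13]
    (by decide +kernel) (by decide +kernel) (by decide +kernel)
  exact transport (ZMod.finEquiv 26).symm.toEquiv h

end Pool.Agent.H367R3.S35L
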