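import Pool.Agent.H816R2.S35Mul4
import Pool.Agent.H816R2.S35Cyc

/-!
A Steiner system `S(3,5,302)` invariant under `x ↦ x + 1` and `x ↦ 157 * x` modulo `302`.
-/

namespace Pool.Agent.H367R3.S35L

open Pool.Agent.H816R2.S35

def cl302 : List (ℕ × List (List ℕ)) :=
  ([(50, [0, 151, 152, 32, 118]),
    (30, [152, 210, 8, 170, 64]),
    (75, [0, 152, 150, 87, 215]),
    (150, [0, 152, 162, 188, 55]),
    (150, [0, 152, 6, 174, 85]),
    (150, [0, 152, 154, 222, 143]),
    (150, [0, 152, 4, 19, 95]),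
    (150, [0, 152, 12, 3, 255]),
    (150, [0, 152, 158, 159, 245]),
    (150, [0, 152, 172, 33, 243]),
    (150, [0, 152, 8, 198, 53]),
    (150, [0, 152, 156, 197, 253])] : List (ℕ × List ℕ)).map fun c => pointed 302 c.1 c.2

theorem ex302 : ∃ 𝓑 : Set (Finset (Fin (301 + 1))), IsS35 (Fin (301 + 1)) 𝓑 := by
  have h := of_cyc 302 157 150 (by norm_num) (by decide +kernel) cl302 (by decide +kernel)
    (by decide +kernel) (by decide +kernel) (by decide +kernel) [1, 2, 151]
    (by decide +kernel) (by decide +kernel) (by decide +kernel)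
  exact transport (ZMod.finEquiv 302).symm.toEquiv h

end Pool.Agent.H367R3.S35L
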