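import Pool.Agent.H367R3.S35.Semi
import Pool.Agent.H367R3.S35.C3125
import Pool.Agent.H367R3.S35.D26
import Pool.Agent.H816R2.S35D125
import Pool.Agent.H816R2.S35D137
import Pool.Agent.H816R2.S35D146
import Pool.Agent.H816R2.S35D197
import Pool.Agent.H816R2.S35D206
import Pool.Agent.H816R2.DF

/-!
Steiner systems `S(3,5,u+1)` for all `u` in a multiplicative monoid.
-/

namespace Pool.Agent.H367R3.S35P

open Finset
open Pool.Agent.H816R2.S35 (IsS35 enum5 enum4 transport ex125 ex137 ex146 ex197 ex206)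
open Pool.Agent.H816R2.DF (IsSteiner)

theorem hasOA_mix (k m : ℕ) (hk : 2 ≤ k) (hm : Nat.Coprime m 6) : HasOA (Fin (2 ^ k * m)) :=
  ((hasOA_pow2 k hk).prod (hasOA_coprime m hm)).congr finProdFinEquiv

theorem good4 : Good 4 :=
  ⟨transport (finSuccEquiv 4).symm ⟨_, isS35_4⟩, hasOA_pow2 2 le_rfl⟩

theorem good25 : Good 25 := ⟨Pool.Agent.H367R3.S35L.ex26, hasOA_coprime 25 (by norm_num)⟩

theorem good124 : Good 124 := ⟨ex125, hasOA_mix 2 31 le_rfl (by norm_num)⟩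

theorem good136 : Good 136 := ⟨ex137, hasOA_mix 3 17 (by norm_num) (by norm_num)⟩

theorem good145 : Good 145 := ⟨ex146, hasOA_coprime 145 (by norm_num)⟩

theorem good196 : Good 196 := ⟨ex197, hasOA_mix 2 49 le_rfl (by norm_num)⟩

theorem good205 : Good 205 := ⟨ex206, hasOA_coprime 205 (by norm_num)⟩

theorem good3124 : Good 3124 :=
  ⟨Pool.Agent.H367R3.S35L.ex3125, hasOA_mix 2 781 le_rfl (by norm_num)⟩

theorem good_closure {S : Set ℕ} (hS : ∀ u ∈ S, Good u) : ∀ u ∈ Submonoid.closure S, Good u := by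
  intro u hu
  induction hu using Submonoid.closure_induction with
  | mem x hx => exact hS x hx
  | one => exact good_one
  | mul x y _ _ hx hy => exact hx.mul hy

theorem toSteiner {m : ℕ} (h : ∃ 𝓑 : Set (Finset (Fin m)), IsS35 (Fin m) 𝓑) :
    ∃ 𝓑 : Finset (Finset (Fin m)), IsSteiner m 5 3 𝓑 := by
  classical
  obtain ⟨𝓑, h1, h2⟩ := h
  refine ⟨Finset.univ.filter (fun B => B ∈ 𝓑), ?_, ?_⟩
  · intro B hB
    exact h1 B (Finset.mem_filter.1 hB).2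
  · intro T hT
    obtain ⟨a, b, c, hab, hac, hbc, rfl⟩ := Finset.card_eq_three.1 hT
    obtain ⟨B, ⟨hB, ha, hb, hc⟩, hu⟩ := h2 a b c hab hac hbc
    have hsub : ∀ C : Finset (Fin m), ({a, b, c} : Finset (Fin m)) ⊆ C ↔ a ∈ C ∧ b ∈ C ∧ c ∈ C := by
      intro C
      rw [Finset.insert_subset_iff, Finset.insert_subset_iff, Finset.singleton_subset_iff]
    refine ⟨B, ⟨Finset.mem_filter.2 ⟨Finset.mem_univ _, hB⟩, (hsub B).2 ⟨ha, hb, hc⟩⟩, ?_⟩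
    rintro C ⟨hC, hC'⟩
    obtain ⟨ha', hb', hc'⟩ := (hsub C).1 hC'
    exact hu C ⟨(Finset.mem_filter.1 hC).2, ha', hb', hc'⟩

theorem fromSteiner {m : ℕ} (h : ∃ 𝓑 : Finset (Finset (Fin m)), IsSteiner m 5 3 𝓑) :
    ∃ 𝓑 : Set (Finset (Fin m)), IsS35 (Fin m) 𝓑 := by
  classical
  obtain ⟨𝓑, h1, h2⟩ := h
  refine ⟨{B | B ∈ 𝓑}, fun B hB => h1 B hB, ?_⟩
  intro a b c hab hac hbc
  have hsub : ∀ C : Finset (Fin m), ({a, b, c} : Finset (Fin m)) ⊆ C ↔ a ∈ C ∧ b ∈ C ∧ c ∈ C := by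
    intro C
    rw [Finset.insert_subset_iff, Finset.insert_subset_iff, Finset.singleton_subset_iff]
  obtain ⟨B, ⟨hB, hT⟩, hu⟩ := h2 {a, b, c} (Finset.card_eq_three.2 ⟨a, b, c, hab, hac, hbc, rfl⟩)
  obtain ⟨ha, hb, hc⟩ := (hsub B).1 hT
  refine ⟨B, ⟨hB, ha, hb, hc⟩, ?_⟩
  rintro C ⟨hC, ha', hb', hc'⟩
  exact hu C ⟨hC, (hsub C).2 ⟨ha', hb', hc'⟩⟩

end Pool.Agent.H367R3.S35P
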