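import Pool.Agent.H367R3.S35.Final
import Pool.Agent.H117R2.Steiner5.Divis

/-!
The product theorem without side condition.
-/

namespace Pool.Agent.H367R3.S35P

open Finset
open Pool.Agent.H816R2.S35 (IsS35 transport)
open Pool.Agent.H816R2.DF (IsSteiner)

theorem hasOA_of {w : ℕ} (hw : w ≠ 0) (h : ∃ 𝓑 : Finset (Finset (Fin (w + 1))),
    IsSteiner (w + 1) 5 3 𝓑) : HasOA (Fin w) := by
  by_cases h4 : w < 4
  · -- only `w = 1` is possible
    have h1 : w = 1 := by
      by_contra hne
      obtain ⟨𝓑, hc, hu⟩ := h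
      obtain ⟨T, hT⟩ := Finset.exists_subset_card_eq (s := (Finset.univ : Finset (Fin (w + 1))))
        (n := 3) (by rw [Finset.card_univ, Fintype.card_fin]; omega)
      obtain ⟨B, ⟨hB, _⟩, _⟩ := hu T hT.2
      have h5 := hc B hB
      have h6 := Finset.card_le_univ B
      rw [Fintype.card_fin] at h6
      omega
    rw [h1]
    exact hasOA_coprime 1 (by norm_num)
  have hd : Pool.Agent.H117R2.Steiner5.Divisibility (w + 1) 5 3 :=
    Pool.Agent.H117R2.Steiner5.div_of_steiner (by norm_num) (by omega) h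
  have h1 := hd 1 (by norm_num)
  have h2 := hd 2 (by norm_num)
  simp only [Nat.add_sub_cancel, show w + 1 - 2 = w - 1 by omega] at h1 h2
  have h2' : 3 ∣ w - 1 := by simpa [Nat.choose] using h2
  have h1' : 6 ∣ w.choose 2 := by simpa [Nat.choose] using h1
  have h3 : ¬ 3 ∣ w := by omega
  have h12 : 12 ∣ w * (w - 1) := by
    have := Nat.choose_two_right w
    have he : Even (w * (w - 1)) := Nat.even_mul_pred_self w
    obtain ⟨c, hc⟩ := h1'
    have hw2 : w * (w - 1) = 2 * w.choose 2 := by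
      rw [this, Nat.mul_div_cancel' he.two_dvd]
    rw [hw2, hc]
    exact ⟨c, by ring⟩
  -- the two cases
  rcases Nat.even_or_odd w with hev | hodd
  · have h4' : 4 ∣ w := by
      have ho : Nat.Coprime 4 (w - 1) := by
        have : Odd (w - 1) := by
          obtain ⟨k, hk⟩ := hev
          exact ⟨k - 1, by omega⟩
        exact Nat.Coprime.pow_left 2 this.coprime_two_left
      exact ho.dvd_of_dvd_mul_right (dvd_trans (by norm_num) h12)
    obtain ⟨a, m, hm, hwm⟩ := Nat.exists_eq_two_pow_mul_odd hw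
    have ha : 2 ≤ a := by
      by_contra hlt
      have : a = 0 ∨ a = 1 := by omega
      obtain ⟨k, hk⟩ := hm
      rcases this with rfl | rfl
      · simp only [pow_zero, one_mul] at hwm
        omega
      · simp only [pow_one] at hwm
        omega
    rw [hwm]
    refine hasOA_mix a m ha ?_
    have c2 : Nat.Coprime m 2 := hm.coprime_two_right
    have c3 : Nat.Coprime m 3 := by
      rw [Nat.coprime_comm, Nat.Prime.coprime_iff_not_dvd Nat.prime_three]
      intro h
      exact h3 (hwm ▸ dvd_mul_of_dvd_right h _)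
    exact Nat.Coprime.mul_right c2 c3
  · refine hasOA_coprime w ?_
    have c2 : Nat.Coprime w 2 := hodd.coprime_two_right
    have c3 : Nat.Coprime w 3 := by
      rw [Nat.coprime_comm, Nat.Prime.coprime_iff_not_dvd Nat.prime_three]
      exact h3
    exact Nat.Coprime.mul_right c2 c3

theorem product {u w : ℕ} (hu : ∃ 𝓑 : Finset (Finset (Fin (u + 1))), IsSteiner (u + 1) 5 3 𝓑)
    (hw : ∃ 𝓑 : Finset (Finset (Fin (w + 1))), IsSteiner (w + 1) 5 3 𝓑) :
    ∃ 𝓑 : Finset (Finset (Fin (u * w + 1))), IsSteiner (u * w + 1) 5 3 𝓑 := by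
  by_cases h0 : w = 0
  · subst h0
    simpa using hw
  obtain ⟨𝓐, hA⟩ := transport (finSuccEquiv u) (fromSteiner hu)
  obtain ⟨𝓖, hG⟩ := transport (finSuccEquiv w) (fromSteiner hw)
  obtain ⟨O, hO⟩ := hasOA_of h0 hw
  obtain ⟨E, hE⟩ := canOf 𝓖 hG
  obtain ⟨𝓑, hB, _⟩ := prod 𝓐 hA 𝓖 hG O hO E hE
  exact toSteiner
    (transport ((Equiv.optionCongr finProdFinEquiv).trans (finSuccEquiv (u * w)).symm) ⟨𝓑, hB⟩)

end Pool.Agent.H367R3.S35P
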