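import Pool.Agent.H367R3.S35.Prod

/-!
The ingredients of size four: an orthogonal array and a candelabra system that contain the
constant words.
-/

namespace Pool.Agent.H367R3.S35P

open Finset
open Pool.Agent.H816R2.S35 (IsS35 enum5 enum4 transport pow2 pow2_spec testBit_and3)

def cCL : List ℕ := [2900678946985657545, 4695144604365100558, 1477888841187903766, 9373189378941786289, 4792131829212713682, 1739552913486817861, 2600847583917154730, 9314043547296535845, 1229790856010343193, 2459568500290169954, 4919131771323433084, 9838263508270206848, 4223155950088192, 67570495142199296, 1081127801945325568, 17294104035489480704, 18446462598732840960]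

def cOL : List ℕ := [1229782938247303441, 4919131752989213764, 9838263505978427528, 2459565876494606882, 1317339743034442785, 5193358597887107460, 9520970329946853960, 2415075402841147410, 9373139274136299585, 1477886650817265960, 4695046873354081410, 2900671275401904660, 9314046665258451585, 1739588480058663960, 4792138022002393410, 2600970906390042660, 65535, 4294901760, 281470681743360, 18446462598732840960]

def cC : Option (Fin 4 × Fin 4) → ℕ
  | none => cCL.getD 16 0
  | some s => cCL.getD (4 * s.1.val + s.2.val) 0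

def cO (s : Fin 5 × Fin 4) : ℕ := cOL.getD (4 * s.1.val + s.2.val) 0

instance decHole (x : Fin 4) (t : Option (Fin 4 × Fin 4)) : Decidable (hole x t) :=
  inferInstanceAs (Decidable (pj t = none ∨ pj t = some x))

instance decBad (p q r : Option (Fin 4 × Fin 4)) : Decidable (Bad p q r) :=
  inferInstanceAs (Decidable (∃ i : Fin 4, hole i p ∧ hole i q ∧ hole i r))

theorem O_good : ∀ p q r : Fin 5 × Fin 4, p.1 ≠ q.1 → p.1 ≠ r.1 → q.1 ≠ r.1 →
    pow2 (cO p &&& cO q &&& cO r) = true := by decide +kernel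

theorem O_excl : ∀ (i : Fin 5) (a b : Fin 4), a ≠ b → cO (i, a) &&& cO (i, b) = 0 := by
  decide +kernel

theorem O_ex : ∀ (w : Fin 64) (i : Fin 5), ∃ a : Fin 4, Nat.testBit (cO (i, a)) w.val = true := by
  decide +kernel

theorem O_const : ∀ a : Fin 4, ∃ w : Fin 64, ∀ i : Fin 5,
    Nat.testBit (cO (i, a)) w.val = true := by decide +kernel

theorem C_good : ∀ p q r : Option (Fin 4 × Fin 4), (p ≠ q ∧ p ≠ r ∧ q ≠ r ∧ ¬ Bad p q r) →
    pow2 (cC p &&& cC q &&& cC r) = true := by decide +kernel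

theorem C_bad : ∀ p q r : Option (Fin 4 × Fin 4), (p ≠ q ∧ p ≠ r ∧ q ≠ r ∧ Bad p q r) →
    cC p &&& cC q &&& cC r = 0 := by decide +kernel

theorem C_card : ∀ w : Fin 64, (Finset.univ.filter fun p : Option (Fin 4 × Fin 4) =>
    Nat.testBit (cC p) w.val = true).card = 5 := by decide +kernel

theorem C_const : ∀ a : Fin 4, ∃ w : Fin 64, ∀ p : Option (Fin 4 × Fin 4),
    Nat.testBit (cC p) w.val = true ↔
      (p = none ∨ ∃ i : Fin 4, p = some (i, a)) := by decide +kernel

def O4 : Set (Fin 5 → Fin 4) :=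
  {o | ∃ w < 64, ∀ i, Nat.testBit (cO (i, o i)) w = true}

def E4 : Set (Finset (Option (Fin 4 × Fin 4))) :=
  {C | ∃ w < 64, C = Finset.univ.filter fun p => Nat.testBit (cC p) w = true}

theorem O_uniq {w : ℕ} {i : Fin 5} {a b : Fin 4} (ha : Nat.testBit (cO (i, a)) w = true)
    (hb : Nat.testBit (cO (i, b)) w = true) : a = b := by
  by_contra hne
  have h := O_excl i a b hne
  have h3 : Nat.testBit (cO (i, a) &&& cO (i, b)) w = true := by
    rw [Nat.testBit_and, ha, hb]; rfl
  rw [h] at h3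
  simp at h3

theorem isOA4 : IsOA O4 := by
  intro i j k hij hik hjk a b c
  obtain ⟨w, hw, hw'⟩ := pow2_spec (O_good (i, a) (j, b) (k, c) hij hik hjk)
  obtain ⟨t1, t2, t3⟩ := testBit_and3.1 ((hw' w).2 rfl)
  choose o ho using O_ex ⟨w, hw⟩
  refine ⟨o, ⟨⟨w, hw, ho⟩, O_uniq (ho i) t1, O_uniq (ho j) t2, O_uniq (ho k) t3⟩, ?_⟩
  rintro o' ⟨⟨w', _, h'⟩, e1, e2, e3⟩
  have k1 := h' i
  have k2 := h' j
  have k3 := h' k
  rw [e1] at k1
  rw [e2] at k2
  rw [e3] at k3
  have hww : w' = w := (hw' w').1 (testBit_and3.2 ⟨k1, k2, k3⟩)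
  subst hww
  funext l
  exact O_uniq (h' l) (ho l)

theorem isCan4 : IsCan E4 := by
  refine ⟨?_, ?_, ?_⟩
  · rintro C ⟨w, hw, rfl⟩
    exact C_card ⟨w, hw⟩
  · intro a b c hab hac hbc hbad
    obtain ⟨w, hw, hw'⟩ := pow2_spec (C_good a b c ⟨hab, hac, hbc, hbad⟩)
    obtain ⟨t1, t2, t3⟩ := testBit_and3.1 ((hw' w).2 rfl)
    refine ⟨_, ⟨⟨w, hw, rfl⟩, by simpa using t1, by simpa using t2, by simpa using t3⟩, ?_⟩
    rintro C ⟨⟨w', _, rfl⟩, k1, k2, k3⟩
    simp only [Finset.mem_filter, Finset.mem_univ, true_and] at k1 k2 k3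
    rw [(hw' w').1 (testBit_and3.2 ⟨k1, k2, k3⟩)]
  · rintro C ⟨w, hw, rfl⟩ a ha b hb c hc hab hac hbc hbad
    simp only [Finset.mem_filter, Finset.mem_univ, true_and] at ha hb hc
    have h := C_bad a b c ⟨hab, hac, hbc, hbad⟩
    have h5 := testBit_and3.2 ⟨ha, hb, hc⟩
    rw [h] at h5
    simp at h5

theorem const_mem_O4 (a : Fin 4) : (fun _ => a) ∈ O4 := by
  obtain ⟨w, hw⟩ := O_const a
  exact ⟨w.val, w.isLt, hw⟩

theorem const_mem_E4 (a : Fin 4) :
    (insert none (Finset.univ.image fun i => some (i, a)) : Finset (Option (Fin 4 × Fin 4))) ∈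
      E4 := by
  obtain ⟨w, hw⟩ := C_const a
  refine ⟨w.val, w.isLt, ?_⟩
  ext p
  simp only [Finset.mem_insert, Finset.mem_image, Finset.mem_univ, true_and, Finset.mem_filter,
    hw p]
  constructor
  · rintro (h | ⟨i, h⟩)
    · exact Or.inl h
    · exact Or.inr ⟨i, h.symm⟩
  · rintro (h | ⟨i, h⟩)
    · exact Or.inl h
    · exact Or.inr ⟨i, h.symm⟩

theorem isS35_4 : IsS35 (Option (Fin 4)) {Finset.univ} := by
  refine ⟨?_, ?_⟩
  · intro B hB
    rw [Set.mem_singleton_iff] at hB
    rw [hB]; rfl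
  · intro a b c _ _ _
    refine ⟨Finset.univ, ⟨rfl, Finset.mem_univ _, Finset.mem_univ _, Finset.mem_univ _⟩, ?_⟩
    rintro B ⟨hB, _⟩
    exact hB

end Pool.Agent.H367R3.S35P
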