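import Pool.Agent.H816R2.S35Base

/-!
Steiner systems `S(3,5,v)` invariant under a group `X ⋊ ⟨θ⟩` where `θ` permutes the nonzero
elements of `X` cyclically; the coverage test works with discrete logarithms.
-/

namespace Pool.Agent.H367R3.S35L

open Finset Pool.Agent.H816R2.S35

section Codes

variable {X : Type} [AddCommGroup X] [Fintype X] [DecidableEq X]

theorem of_codes2 (θ : X →+ X) (n : ℕ) (hn : 0 < n) (hθ : ∀ x, θ^[n] x = x)
    (v : ℕ) (hv : Fintype.card X = v) (el : ℕ → X) (th : ℕ → ℕ) (cs : ℕ → ℕ → ℕ)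
    (hel : ∀ g : X, ∃ x < v, el x = g)
    (hinj : ∀ x < v, ∀ y < v, el x = el y → x = y)
    (hel0 : el 0 = 0)
    (hth : ∀ x < v, th x < v ∧ el (th x) = θ (el x))
    (hcs : ∀ x < v, ∀ y < v, cs x y < v ∧ el (cs x y) = el x - el y)
    (cl : List (ℕ × List (List ℕ))) (h1 : okCl v cl = true) (h2 : okTr cs cl = true)
    (h3 : ∀ c ∈ cl, c.1 = n ∨ ∀ D ∈ c.2, ∃ D' ∈ c.2, ∀ y ∈ D, th^[c.1] y ∈ D')
    (h4 : 12 * cnt cl = (v - 1) * (v - 2))
    (one : ℕ) (hone : one < v) (h5 : ∀ x < v, x ≠ 0 → ∃ i, th^[i] one = x)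
    (h6 : ∀ x < v, ∃ c ∈ cl, ∃ D ∈ c.2, ∃ i < c.1, ∃ y ∈ D, ∃ z ∈ D,
      th^[i] y = one ∧ th^[i] z = x) :
    ∃ 𝓑 : Set (Finset X), IsS35 X 𝓑 := by
  classical
  have hit : ∀ (i : ℕ) (x : ℕ), x < v → th^[i] x < v ∧ el (th^[i] x) = θ^[i] (el x) := by
    intro i
    induction i with
    | zero => intro x hx; exact ⟨hx, rfl⟩
    | succ i ih =>
      intro x hx
      rw [Function.iterate_succ_apply', Function.iterate_succ_apply']
      obtain ⟨ha, hb⟩ := ih x hx
      obtain ⟨hc, hd⟩ := hth _ ha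
      exact ⟨hc, by rw [hd, hb]⟩
  have hθinj : ∀ i : ℕ, Function.Injective (θ^[i]) := by
    have h1 : Function.Injective θ := by
      intro x y hxy
      have hx := hθ x
      have hy := hθ y
      obtain ⟨m, rfl⟩ : ∃ m, n = m + 1 := ⟨n - 1, by omega⟩
      rw [Function.iterate_succ_apply] at hx hy
      rw [← hx, ← hy, hxy]
    exact fun i => h1.iterate i
  have hok : ∀ c ∈ cl, 0 < c.1 ∧ ∀ D ∈ c.2, D.length = 5 ∧ D.Nodup ∧ (∀ x ∈ D, x < v) ∧
      0 ∈ D := by
    intro c hc
    unfold okCl at h1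
    rw [List.all_eq_true] at h1
    have h := h1 c hc
    rw [Bool.and_eq_true, decide_eq_true_eq, List.all_eq_true] at h
    refine ⟨h.1, ?_⟩
    intro D hD
    have h' := h.2 D hD
    unfold okD at h'
    simp only [Bool.and_eq_true, beq_iff_eq, decide_eq_true_eq, List.all_eq_true,
      List.contains_iff_mem] at h'
    exact ⟨h'.1.1.1, h'.1.1.2, h'.1.2, h'.2⟩
  have hokT : ∀ c ∈ cl, ∀ D ∈ c.2, ∀ x ∈ D, ∃ D' ∈ c.2, ∀ y ∈ D, cs y x ∈ D' := by
    intro c hc D hD x hx
    unfold okTr at h2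
    simp only [List.all_eq_true, List.any_eq_true, List.contains_iff_mem] at h2
    exact h2 c hc D hD x hx
  have hmemL : ∀ E, E ∈ allD th cl ↔ ∃ c ∈ cl, ∃ D ∈ c.2, ∃ i < c.1, E = D.map (th^[i]) := by
    intro E
    unfold allD
    simp only [List.mem_flatMap, mem_orb]
  have hcardst : ∀ c ∈ cl, ∀ D ∈ c.2, (st el D).card = 5 := by
    intro c hc D hD
    obtain ⟨ha, hb, hlt, _⟩ := (hok c hc).2 D hD
    unfold st
    rw [List.toFinset_card_of_nodup, List.length_map, ha]
    exact List.Nodup.map_on (fun x hx y hy hxy => hinj x (hlt x hx) y (hlt y hy) hxy) hb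
  have hstit : ∀ c ∈ cl, ∀ D ∈ c.2, ∀ i, st el (D.map (th^[i])) = (st el D).image (θ^[i]) := by
    intro c hc D hD i
    obtain ⟨_, _, hlt, _⟩ := (hok c hc).2 D hD
    ext g
    simp only [mem_st, Finset.mem_image, List.mem_map]
    constructor
    · rintro ⟨x, ⟨y, hy, rfl⟩, rfl⟩
      exact ⟨el y, ⟨y, hy, rfl⟩, ((hit i y (hlt y hy)).2).symm⟩
    · rintro ⟨a, ⟨y, hy, rfl⟩, rfl⟩
      exact ⟨_, ⟨y, hy, rfl⟩, (hit i y (hlt y hy)).2⟩
  let 𝓓 : Finset (Finset X) := ((allD th cl).map (st el)).toFinset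
  have hmem : ∀ E, E ∈ 𝓓 ↔ ∃ c ∈ cl, ∃ D ∈ c.2, ∃ i < c.1, E = (st el D).image (θ^[i]) := by
    intro E
    rw [List.mem_toFinset, List.mem_map]
    constructor
    · rintro ⟨L, hL, rfl⟩
      obtain ⟨c, hc, D, hD, i, hi, rfl⟩ := (hmemL L).1 hL
      exact ⟨c, hc, D, hD, i, hi, hstit c hc D hD i⟩
    · rintro ⟨c, hc, D, hD, i, hi, rfl⟩
      exact ⟨_, (hmemL _).2 ⟨c, hc, D, hD, i, hi, rfl⟩, hstit c hc D hD i⟩
  have hsub : ∀ c ∈ cl, ∀ D' ∈ c.2, ∀ S : Finset X, S.card = 5 → S ⊆ st el D' → S = st el D' := by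
    intro c hc D' hD' S hS hSD
    exact Finset.eq_of_subset_of_card_le hSD (by rw [hcardst c hc D' hD', hS])
  refine main θ n hn hθ 𝓓 ?_ ?_ ?_ ?_ [el one] ?_ ?_ ?_
  · intro E hE
    obtain ⟨c, hc, D, hD, i, hi, rfl⟩ := (hmem E).1 hE
    rw [Finset.card_image_of_injective _ (hθinj i)]
    exact hcardst c hc D hD
  · intro E hE
    obtain ⟨c, hc, D, hD, i, hi, rfl⟩ := (hmem E).1 hE
    obtain ⟨_, _, _, h0⟩ := (hok c hc).2 D hD
    have hz : θ^[i] 0 = 0 := iterate_map_zero θ i
    exact Finset.mem_image.2 ⟨0, mem_st.2 ⟨0, h0, hel0⟩, hz⟩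
  · intro E hE z hz
    obtain ⟨c, hc, D, hD, i, hi, rfl⟩ := (hmem E).1 hE
    obtain ⟨w, hw, rfl⟩ := Finset.mem_image.1 hz
    obtain ⟨x, hx, rfl⟩ := mem_st.1 hw
    obtain ⟨D', hD', hall⟩ := hokT c hc D hD x hx
    obtain ⟨_, _, hlt, _⟩ := (hok c hc).2 D hD
    refine (hmem _).2 ⟨c, hc, D', hD', i, hi, ?_⟩
    have : (st el D).image (fun y => y - el x) = st el D' := by
      refine hsub c hc D' hD' _ ?_ ?_
      · rw [Finset.card_image_of_injective _ (sub_left_injective)]
        exact hcardst c hc D hD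
      · intro g hg
        obtain ⟨w, hw, rfl⟩ := Finset.mem_image.1 hg
        obtain ⟨y, hy, rfl⟩ := mem_st.1 hw
        exact mem_st.2 ⟨_, hall y hy, (hcs y (hlt y hy) x (hlt x hx)).2⟩
    rw [← this, Finset.image_image, Finset.image_image]
    congr 1
    funext w
    simp only [Function.comp]
    exact (iterate_map_sub θ i w (el x)).symm
  · intro E hE
    obtain ⟨c, hc, D, hD, i, hi, rfl⟩ := (hmem E).1 hE
    have him : ((st el D).image (θ^[i])).image θ = (st el D).image (θ^[i + 1]) := by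
      rw [Finset.image_image]
      congr 1
      rw [Function.iterate_succ']
    rw [him]
    by_cases hi' : i + 1 < c.1
    · exact (hmem _).2 ⟨c, hc, D, hD, i + 1, hi', rfl⟩
    · have hic : i + 1 = c.1 := by omega
      rcases h3 c hc with hcn | hh
      · refine (hmem _).2 ⟨c, hc, D, hD, 0, (hok c hc).1, ?_⟩
        rw [hic, hcn]
        refine Finset.image_congr ?_
        intro x _
        rw [hθ x]
        rfl
      · obtain ⟨D', hD', hall⟩ := hh D hD
        obtain ⟨_, _, hlt, _⟩ := (hok c hc).2 D hD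
        refine (hmem _).2 ⟨c, hc, D', hD', 0, (hok c hc).1, ?_⟩
        have h0 : (st el D').image (θ^[0]) = st el D' := by simp
        rw [h0]
        refine hsub c hc D' hD' _ ?_ ?_
        · rw [Finset.card_image_of_injective _ (hθinj _)]
          exact hcardst c hc D hD
        · intro g hg
          obtain ⟨w, hw, rfl⟩ := Finset.mem_image.1 hg
          obtain ⟨y, hy, rfl⟩ := mem_st.1 hw
          rw [hic]
          exact mem_st.2 ⟨_, hall y hy, (hit c.1 y (hlt y hy)).2⟩
  · intro d hd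
    obtain ⟨x, hx, rfl⟩ := hel d
    have hx0 : x ≠ 0 := by
      rintro rfl
      exact hd hel0
    obtain ⟨i, hi⟩ := h5 x hx hx0
    exact ⟨el one, List.mem_singleton.2 rfl, i, by rw [← (hit i one hone).2, hi]⟩
  · intro g hg e
    rw [List.mem_singleton.1 hg]
    obtain ⟨x, hx, rfl⟩ := hel e
    obtain ⟨c, hc, D, hD, i, hi, y, hy, z, hz, h7, h8⟩ := h6 x hx
    obtain ⟨_, _, hlt, _⟩ := (hok c hc).2 D hD
    refine ⟨(st el D).image (θ^[i]), (hmem _).2 ⟨c, hc, D, hD, i, hi, rfl⟩, ?_, ?_⟩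
    · rw [← h7, (hit i y (hlt y hy)).2]
      exact Finset.mem_image_of_mem _ (mem_st.2 ⟨y, hy, rfl⟩)
    · rw [← h8, (hit i z (hlt z hz)).2]
      exact Finset.mem_image_of_mem _ (mem_st.2 ⟨z, hz, rfl⟩)
  · have hc : 𝓓.card ≤ cnt cl := by
      refine le_trans (List.toFinset_card_le _) ?_
      rw [List.length_map, length_allD]
    rw [hv, ← h4]
    exact Nat.mul_le_mul_left _ hc

end Codes

/-! ### The logarithm table -/

/-- entry `i` of a table with entries of 12 bits -/
def dig (T i : ℕ) : ℕ := (T >>> (12 * i)) % 4096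

/-- differences modulo `n` -/
def difs (n : ℕ) (L : List ℕ) : List ℕ := L.flatMap fun a => L.map fun b => (b + (n - a)) % n

def covL (n : ℕ) : List (List ℕ) → ℕ → ℕ
  | [], acc => acc
  | L :: l, acc => covL n l (addBits (difs n L) acc)

theorem covL_spec (n : ℕ) (l : List (List ℕ)) : ∀ (acc k : ℕ),
    Nat.testBit (covL n l acc) k = true →
      (Nat.testBit acc k = true ∨ ∃ L ∈ l, k ∈ difs n L) := by
  induction l with
  | nil => intro acc d h; exact Or.inl h
  | cons L l ih =>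
    intro acc k h
    rw [covL] at h
    rcases ih _ _ h with h1 | ⟨E, hE, h2⟩
    · rcases (addBits_spec _ _ _).1 h1 with h3 | h3
      · exact Or.inl h3
      · exact Or.inr ⟨L, List.mem_cons_self, h3⟩
    · exact Or.inr ⟨E, List.mem_cons_of_mem _ hE, h2⟩

/-- the table lists the iterates of `th` from `1` on -/
def okTbl (th : ℕ → ℕ) (T n : ℕ) : Bool :=
  (dig T 0 == 1) && (th (dig T (n - 1)) == 1) &&
    (List.range (n - 1)).all fun i => th (dig T i) == dig T (i + 1)

/-- pointed blocks of a block -/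
def ptd (cs : ℕ → ℕ → ℕ) (B : List ℕ) : List (List ℕ) := B.map fun x => B.map fun y => cs y x

theorem tbl_iter {th : ℕ → ℕ} {T n : ℕ} (hn : 0 < n) (h : okTbl th T n = true) :
    ∀ m, th^[m] 1 = dig T (m % n) := by
  unfold okTbl at h
  simp only [Bool.and_eq_true, beq_iff_eq, List.all_eq_true, List.mem_range] at h
  obtain ⟨⟨h0, hl⟩, hs⟩ := h
  intro m
  induction m with
  | zero => rw [Nat.zero_mod, h0]; rfl
  | succ m ih =>
    rw [Function.iterate_succ_apply', ih]
    have hm : m % n < n := Nat.mod_lt _ hn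
    by_cases hc : m % n < n - 1
    · rw [hs _ hc]
      congr 1
      rw [Nat.add_mod]
      by_cases h1 : n = 1
      · omega
      · rw [Nat.mod_eq_of_lt (show 1 < n by omega), Nat.mod_eq_of_lt (show m % n + 1 < n by omega)]
    · have hc' : m % n = n - 1 := by omega
      rw [hc', hl]
      have : (m + 1) % n = 0 := by
        rw [Nat.add_mod, hc']
        by_cases h1 : n = 1
        · subst h1; rfl
        · rw [Nat.mod_eq_of_lt (show 1 < n by omega), Nat.sub_add_cancel hn, Nat.mod_self]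
      rw [this, h0]

section Main

variable {X : Type} [AddCommGroup X] [Fintype X] [DecidableEq X]

/-- the classes: one short class `line` and full classes -/
def clOf (cs : ℕ → ℕ → ℕ) (n m0 : ℕ) (line : List ℕ) (bs : List (List ℕ)) :
    List (ℕ × List (List ℕ)) := (m0, [line]) :: bs.map fun B => (n, ptd cs B)

theorem of_logs (θ : X →+ X) (n : ℕ) (hn : 0 < n)
    (v : ℕ) (hv : Fintype.card X = v) (el : ℕ → X) (th : ℕ → ℕ) (cs : ℕ → ℕ → ℕ)
    (hel : ∀ g : X, ∃ x < v, el x = g)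
    (hinj : ∀ x < v, ∀ y < v, el x = el y → x = y)
    (hel0 : el 0 = 0) (h1v : 1 < v)
    (hth : ∀ x < v, th x < v ∧ el (th x) = θ (el x))
    (hcs : ∀ x < v, ∀ y < v, cs x y < v ∧ el (cs x y) = el x - el y)
    (T : ℕ) (m0 : ℕ) (line lline : List ℕ) (bs lgs : List (List ℕ))
    (hT : okTbl th T n = true)
    (hR : addBits ((List.range n).map (dig T)) 1 = 2 ^ v - 1)
    (hL : (decide (0 < m0) && line.contains 0 && line.contains 1 &&
      ((difs n lline).all fun k => line.contains (dig T k)) &&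
      ((iter th m0 line).all fun y => line.contains y)) = true)
    (hG : (((bs.flatMap (ptd cs)).zip lgs).all fun p => p.2.all fun l =>
      decide (l < n) && p.1.contains (dig T l)) = true)
    (hC : covL n (((bs.flatMap (ptd cs)).zip lgs).map Prod.snd) (addBits (difs n lline) 0) =
      2 ^ n - 1)
    (h1 : okCl v (clOf cs n m0 line bs) = true) (h2 : okTr cs (clOf cs n m0 line bs) = true)
    (h4 : 12 * cnt (clOf cs n m0 line bs) = (v - 1) * (v - 2)) :
    ∃ 𝓑 : Set (Finset X), IsS35 X 𝓑 := by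
  classical
  have hti := tbl_iter hn hT
  have hit : ∀ (i : ℕ) (x : ℕ), x < v → th^[i] x < v ∧ el (th^[i] x) = θ^[i] (el x) := by
    intro i
    induction i with
    | zero => intro x hx; exact ⟨hx, rfl⟩
    | succ i ih =>
      intro x hx
      rw [Function.iterate_succ_apply', Function.iterate_succ_apply']
      obtain ⟨ha, hb⟩ := ih x hx
      obtain ⟨hc, hd⟩ := hth _ ha
      exact ⟨hc, by rw [hd, hb]⟩
  have hreach : ∀ x < v, x ≠ 0 → ∃ i < n, dig T i = x := by
    intro x hx hx0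
    have ht : Nat.testBit (addBits ((List.range n).map (dig T)) 1) x = true := by
      rw [hR, Nat.testBit_two_pow_sub_one]
      exact decide_eq_true hx
    rcases (addBits_spec _ _ _).1 ht with h | h
    · rw [Nat.testBit_one_eq_true_iff_self_eq_zero] at h
      exact absurd h hx0
    · obtain ⟨i, hi, rfl⟩ := List.mem_map.1 h
      exact ⟨i, List.mem_range.1 hi, rfl⟩
  have h5 : ∀ x < v, x ≠ 0 → ∃ i, th^[i] 1 = x := by
    intro x hx hx0
    obtain ⟨i, hi, rfl⟩ := hreach x hx hx0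
    exact ⟨i, by rw [hti, Nat.mod_eq_of_lt hi]⟩
  have hd0 : dig T 0 = 1 := by
    have := hti 0
    rw [Nat.zero_mod] at this
    exact this.symm
  have hθ : ∀ x : X, θ^[n] x = x := by
    intro x
    obtain ⟨c, hc, rfl⟩ := hel x
    by_cases hc0 : c = 0
    · rw [hc0, hel0]; exact iterate_map_zero θ n
    · obtain ⟨i, rfl⟩ := h5 c hc hc0
      rw [(hit i 1 h1v).2, ← Function.iterate_add_apply, Nat.add_comm, Function.iterate_add_apply,
        ← (hit n 1 h1v).2, hti, Nat.mod_self, hd0]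
  simp only [Bool.and_eq_true, decide_eq_true_eq, List.all_eq_true, List.contains_iff_mem] at hL
  obtain ⟨⟨⟨⟨hm0, hl0⟩, hl1⟩, hld⟩, hlt⟩ := hL
  have hmemline : ((m0, [line]) : ℕ × List (List ℕ)) ∈ clOf cs n m0 line bs := by
    unfold clOf
    exact List.mem_cons_self
  refine of_codes2 θ n hn hθ v hv el th cs hel hinj hel0 hth hcs (clOf cs n m0 line bs) h1 h2 ?_ h4
    1 h1v h5 ?_
  · intro c hc
    unfold clOf at hc
    rcases List.mem_cons.1 hc with rfl | hc
    · right
      intro D hD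
      rw [List.mem_singleton] at hD
      subst hD
      refine ⟨D, List.mem_singleton.2 rfl, ?_⟩
      intro y hy
      have := hlt (th^[m0] y) (by rw [iter_eq]; exact List.mem_map.2 ⟨y, hy, rfl⟩)
      exact this
    · left
      obtain ⟨B, _, rfl⟩ := List.mem_map.1 hc
      rfl
  · intro x hx
    -- points of the line
    have hline : x ∈ line → ∃ c ∈ clOf cs n m0 line bs, ∃ D ∈ c.2, ∃ i < c.1, ∃ y ∈ D, ∃ z ∈ D,
        th^[i] y = 1 ∧ th^[i] z = x := fun hxl =>
      ⟨_, hmemline, line, List.mem_singleton.2 rfl, 0, hm0, 1, hl1, x, hxl, rfl, rfl⟩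
    by_cases hx0 : x = 0
    · exact hline (hx0 ▸ hl0)
    obtain ⟨k, hk, hkx⟩ := hreach x hx hx0
    have ht : Nat.testBit (covL n (((bs.flatMap (ptd cs)).zip lgs).map Prod.snd)
        (addBits (difs n lline) 0)) k = true := by
      rw [hC, Nat.testBit_two_pow_sub_one]
      exact decide_eq_true hk
    rcases covL_spec _ _ _ _ ht with h | ⟨L, hL', hkL⟩
    · rcases (addBits_spec _ _ _).1 h with h | h
      · simp at h
      · apply hline
        rw [← hkx]
        exact hld k h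
    · obtain ⟨p, hp, rfl⟩ := List.mem_map.1 hL'
      have hp1 : p.1 ∈ bs.flatMap (ptd cs) := (List.of_mem_zip (a := p.1) (b := p.2) hp).1
      obtain ⟨B, hB, hpB⟩ := List.mem_flatMap.1 hp1
      rw [List.all_eq_true] at hG
      have hp2 := hG p hp
      simp only [List.all_eq_true, Bool.and_eq_true, decide_eq_true_eq,
        List.contains_iff_mem] at hp2
      unfold difs at hkL
      obtain ⟨a, ha, hb'⟩ := List.mem_flatMap.1 hkL
      obtain ⟨b, hb, hbk⟩ := List.mem_map.1 hb'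
      obtain ⟨han, had⟩ := hp2 a ha
      obtain ⟨hbn, hbd⟩ := hp2 b hb
      refine ⟨(n, ptd cs B), ?_, p.1, hpB, (n - a) % n, Nat.mod_lt _ hn, _, had, _, hbd, ?_, ?_⟩
      · unfold clOf
        exact List.mem_cons_of_mem _ (List.mem_map.2 ⟨B, hB, rfl⟩)
      · have e := hti a
        rw [Nat.mod_eq_of_lt han] at e
        rw [← e, ← Function.iterate_add_apply, hti, Nat.mod_add_mod,
          Nat.sub_add_cancel han.le, Nat.mod_self, hd0]
      · have e := hti b
        rw [Nat.mod_eq_of_lt hbn] at e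
        rw [← e, ← Function.iterate_add_apply, hti, Nat.mod_add_mod, Nat.add_comm, hbk, hkx]

end Main

end Pool.Agent.H367R3.S35L
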