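import Pool.Agent.H816R2.S35Mul4

/-!
The product construction: from an `S(3,5,u+1)` and an `S(3,5,w+1)` to an `S(3,5,uw+1)`, given an
orthogonal array of strength three with five factors and `w` levels.
-/

namespace Pool.Agent.H367R3.S35P

open Finset
open Pool.Agent.H816R2.S35 (IsS35 enum5 enum4 transport)

set_option linter.unusedSectionVars false

section

variable {α W : Type} [DecidableEq α] [DecidableEq W]

/-- projection to the first factor -/
def pj (t : Option (α × W)) : Option α := t.map Prod.fst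

def hole (x : α) (t : Option (α × W)) : Prop := pj t = none ∨ pj t = some x

/-- all three points lie in one fibre together with `∞` -/
def Bad (a b c : Option (α × W)) : Prop := ∃ x : α, hole x a ∧ hole x b ∧ hole x c

/-- orthogonal array of strength three with five factors -/
def IsOA (O : Set (Fin 5 → W)) : Prop :=
  ∀ i j k : Fin 5, i ≠ j → i ≠ k → j ≠ k → ∀ a b c : W, ∃! o, o ∈ O ∧ o i = a ∧ o j = b ∧ o k = c

/-- candelabra system with four branches -/
structure IsCan (E : Set (Finset (Option (Fin 4 × W)))) : Prop where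
  card : ∀ C ∈ E, C.card = 5
  good : ∀ a b c, a ≠ b → a ≠ c → b ≠ c → ¬ Bad a b c → ∃! C, C ∈ E ∧ a ∈ C ∧ b ∈ C ∧ c ∈ C
  bad : ∀ C ∈ E, ∀ a ∈ C, ∀ b ∈ C, ∀ c ∈ C, a ≠ b → a ≠ c → b ≠ c → ¬ Bad a b c

def bG (x : α) (B : Finset (Option W)) : Finset (Option (α × W)) :=
  B.image (Option.map fun w => (x, w))

def bO (f : Fin 5 → α) (o : Fin 5 → W) : Finset (Option (α × W)) :=
  Finset.univ.image fun i => some (f i, o i)

def bC (g : Fin 4 → α) (C : Finset (Option (Fin 4 × W))) : Finset (Option (α × W)) :=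
  C.image (Option.map (Prod.map g id))

theorem mem_bG {x : α} {B : Finset (Option W)} {t : Option (α × W)} :
    t ∈ bG x B ↔ ∃ s ∈ B, Option.map (fun w => (x, w)) s = t := by
  unfold bG; exact Finset.mem_image

theorem mem_bO {f : Fin 5 → α} {o : Fin 5 → W} {t : Option (α × W)} :
    t ∈ bO f o ↔ ∃ i, some (f i, o i) = t := by
  unfold bO; simp

theorem mem_bC {g : Fin 4 → α} {C : Finset (Option (Fin 4 × W))} {t : Option (α × W)} :
    t ∈ bC g C ↔ ∃ p ∈ C, Option.map (Prod.map g id) p = t := by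
  unfold bC; exact Finset.mem_image

theorem injG (x : α) : Function.Injective (Option.map fun w : W => (x, w)) :=
  Option.map_injective (fun _ _ h => (Prod.mk.inj h).2)

theorem injC {g : Fin 4 → α} (hg : Function.Injective g) :
    Function.Injective (Option.map (Prod.map g (id : W → W))) :=
  Option.map_injective (Function.Injective.prodMap hg Function.injective_id)

theorem pj_none {t : Option (α × W)} (h : pj t = none) : t = none := by
  rcases t with _ | s
  · rfl
  · simp [pj] at h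

theorem hole_iff {x : α} {t : Option (α × W)} :
    hole x t ↔ ∃ s : Option W, Option.map (fun w => (x, w)) s = t := by
  constructor
  · rintro (h | h)
    · exact ⟨none, by rw [pj_none h]; rfl⟩
    · rcases t with _ | ⟨y, w⟩
      · simp [pj] at h
      · have : y = x := by simpa [pj] using h
        exact ⟨some w, by rw [this]; rfl⟩
  · rintro ⟨s, rfl⟩
    rcases s with _ | w
    · exact Or.inl rfl
    · exact Or.inr rfl

theorem pj_bC {g : Fin 4 → α} (p : Option (Fin 4 × W)) :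
    pj (Option.map (Prod.map g (id : W → W)) p) = Option.map g (pj p) := by
  rcases p with _ | s
  · rfl
  · rfl

/-- the old block `A` is responsible for the triple `a, b, c` -/
def Sup (a b c : Option (α × W)) (A : Finset (Option α)) : Prop :=
  pj a ∈ A ∧ pj b ∈ A ∧ pj c ∈ A ∧ (none ∈ A ∨ (pj a ≠ pj b ∧ pj a ≠ pj c ∧ pj b ≠ pj c))

theorem claim1 {𝓑 : Set (Finset (Option α))} (h : IsS35 (Option α) 𝓑)
    {a b c : Option (α × W)} (hab : a ≠ b) (hac : a ≠ c) (hbc : b ≠ c) (hbad : ¬ Bad a b c) :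
    ∃! B, B ∈ 𝓑 ∧ Sup a b c B := by
  have key : ∀ s t u : Option (α × W), s ≠ t → pj s = pj t → ¬ Bad s t u →
      ∃! B, B ∈ 𝓑 ∧ (pj s ∈ B ∧ pj u ∈ B ∧ none ∈ B) := by
    intro s t u hst hp hb
    have hsn : pj s ≠ none := by
      intro hs
      exact hst ((pj_none hs).trans (pj_none (hp ▸ hs)).symm)
    obtain ⟨x, hx⟩ := Option.ne_none_iff_exists'.1 hsn
    have hun : pj u ≠ none := by
      intro hu
      exact hb ⟨x, Or.inr hx, Or.inr (hp ▸ hx), Or.inl hu⟩
    have hus : pj s ≠ pj u := by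
      intro hu
      exact hb ⟨x, Or.inr hx, Or.inr (hp ▸ hx), Or.inr (hu ▸ hx)⟩
    obtain ⟨B, hB, hB'⟩ := h.2 (pj s) (pj u) none hus hsn hun
    exact ⟨B, hB, hB'⟩
  by_cases h1 : pj a = pj b
  · obtain ⟨B, ⟨hB, h2, h3, h4⟩, hu⟩ := key a b c hab h1 hbad
    refine ⟨B, ⟨hB, h2, h1 ▸ h2, h3, Or.inl h4⟩, ?_⟩
    rintro B' ⟨hB', h5, h6, h7, h8⟩
    rcases h8 with h8 | h8
    · exact hu B' ⟨hB', h5, h7, h8⟩
    · exact absurd h1 h8.1
  by_cases h2 : pj a = pj c
  · have hb' : ¬ Bad a c b := fun ⟨x, hx, hy, hz⟩ => hbad ⟨x, hx, hz, hy⟩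
    obtain ⟨B, ⟨hB, h3, h4, h5⟩, hu⟩ := key a c b hac h2 hb'
    refine ⟨B, ⟨hB, h3, h4, h2 ▸ h3, Or.inl h5⟩, ?_⟩
    rintro B' ⟨hB', h6, h7, h8, h9⟩
    rcases h9 with h9 | h9
    · exact hu B' ⟨hB', h6, h7, h9⟩
    · exact absurd h2 h9.2.1
  by_cases h3 : pj b = pj c
  · have hb' : ¬ Bad b c a := fun ⟨x, hx, hy, hz⟩ => hbad ⟨x, hz, hx, hy⟩
    obtain ⟨B, ⟨hB, h4, h5, h6⟩, hu⟩ := key b c a hbc h3 hb'
    refine ⟨B, ⟨hB, h5, h4, h3 ▸ h4, Or.inl h6⟩, ?_⟩
    rintro B' ⟨hB', h7, h8, h9, h10⟩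
    rcases h10 with h10 | h10
    · exact hu B' ⟨hB', h8, h7, h10⟩
    · exact absurd h3 h10.2.2
  · obtain ⟨B, ⟨hB, h4, h5, h6⟩, hu⟩ := h.2 (pj a) (pj b) (pj c) h1 h2 h3
    refine ⟨B, ⟨hB, h4, h5, h6, Or.inr ⟨h1, h2, h3⟩⟩, ?_⟩
    rintro B' ⟨hB', h7, h8, h9, _⟩
    exact hu B' ⟨hB', h7, h8, h9⟩

theorem pj_ne_bO {f : Fin 5 → α} (hf : Function.Injective f) {o : Fin 5 → W}
    {a b : Option (α × W)} (hab : a ≠ b) (ha : a ∈ bO f o) (hb : b ∈ bO f o) : pj a ≠ pj b := by
  obtain ⟨i, rfl⟩ := mem_bO.1 ha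
  obtain ⟨j, rfl⟩ := mem_bO.1 hb
  intro h
  have : i = j := by
    apply hf
    simpa [pj] using h
  exact hab (by rw [this])

theorem bad_bC {g : Fin 4 → α} (hg : Function.Injective g) {p q r : Option (Fin 4 × W)}
    (hpq : p ≠ q)
    (h : Bad (Option.map (Prod.map g (id : W → W)) p) (Option.map (Prod.map g id) q)
      (Option.map (Prod.map g id) r)) : Bad p q r := by
  obtain ⟨x, h1, h2, h3⟩ := h
  unfold hole at h1 h2 h3
  rw [pj_bC] at h1 h2 h3
  have hconv : ∀ i : Fin 4, g i = x → ∀ t : Option (Fin 4 × W),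
      (Option.map g (pj t) = none ∨ Option.map g (pj t) = some x) → hole i t := by
    intro i hi t ht
    rcases t with _ | s
    · exact Or.inl rfl
    · rcases ht with ht | ht
      · simp [pj] at ht
      · have : g s.1 = x := by simpa [pj] using ht
        exact Or.inr (by
          have : s.1 = i := hg (this.trans hi.symm)
          simp [pj, this])
  have hex : ∃ i : Fin 4, g i = x := by
    rcases p with _ | s
    · rcases q with _ | u
      · exact absurd rfl hpq
      · rcases h2 with h | h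
        · simp [pj] at h
        · exact ⟨u.1, by simpa [pj] using h⟩
    · rcases h1 with h | h
      · simp [pj] at h
      · exact ⟨s.1, by simpa [pj] using h⟩
  obtain ⟨i, hi⟩ := hex
  exact ⟨i, hconv i hi p h1, hconv i hi q h2, hconv i hi r h3⟩

theorem bad_bC' {g : Fin 4 → α} {p q r : Option (Fin 4 × W)} (h : Bad p q r) :
    Bad (Option.map (Prod.map g (id : W → W)) p) (Option.map (Prod.map g id) q)
      (Option.map (Prod.map g id) r) := by
  obtain ⟨i, h1, h2, h3⟩ := h
  have hconv : ∀ t : Option (Fin 4 × W), hole i t →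
      hole (g i) (Option.map (Prod.map g (id : W → W)) t) := by
    intro t ht
    unfold hole
    rw [pj_bC]
    rcases ht with h | h
    · left; rw [h]; rfl
    · right; rw [h]; rfl
  exact ⟨g i, hconv p h1, hconv q h2, hconv r h3⟩

theorem prod (𝓐 : Set (Finset (Option α))) (hA : IsS35 (Option α) 𝓐)
    (𝓖 : Set (Finset (Option W))) (hG : IsS35 (Option W) 𝓖)
    (O : Set (Fin 5 → W)) (hO : IsOA O)
    (E : Set (Finset (Option (Fin 4 × W)))) (hE : IsCan E) :
    ∃ 𝓑 : Set (Finset (Option (α × W))), IsS35 (Option (α × W)) 𝓑 ∧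
      ∀ w : W, (fun _ => w) ∈ O → insert none (Finset.univ.image fun i => some (i, w)) ∈ E →
        ∀ A ∈ 𝓐, A.image (Option.map fun x => (x, w)) ∈ 𝓑 := by
  classical
  choose F hFi hF using fun B : {B : Finset (Option α) // B ∈ 𝓐 ∧ none ∉ B} =>
    enum5 B.1 (hA.1 B.1 B.2.1) B.2.2
  choose G hGi hGm using fun B : {B : Finset (Option α) // B ∈ 𝓐 ∧ none ∈ B} =>
    enum4 B.1 (hA.1 B.1 B.2.1) B.2.2
  refine ⟨{C | (∃ x, ∃ B ∈ 𝓖, C = bG x B) ∨
    (∃ B : {B : Finset (Option α) // B ∈ 𝓐 ∧ none ∉ B}, ∃ o ∈ O, C = bO (F B) o) ∨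
    (∃ B : {B : Finset (Option α) // B ∈ 𝓐 ∧ none ∈ B}, ∃ D ∈ E, C = bC (G B) D)}, ⟨?_, ?_⟩, ?_⟩
  · rintro C (⟨x, B, hB, rfl⟩ | ⟨B, o, ho, rfl⟩ | ⟨B, D, hD, rfl⟩)
    · unfold bG
      rw [Finset.card_image_of_injective _ (injG x)]
      exact hG.1 B hB
    · unfold bO
      rw [Finset.card_image_of_injective]
      · simp
      · intro i j hij
        have := (Prod.mk.inj (Option.some.inj hij)).1
        exact hFi B this
    · unfold bC
      rw [Finset.card_image_of_injective _ (injC (hGi B))]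
      exact hE.card D hD
  · intro a b c hab hac hbc
    by_cases hbad : Bad a b c
    · obtain ⟨x, ha, hb, hc⟩ := hbad
      obtain ⟨a', ha'⟩ := hole_iff.1 ha
      obtain ⟨b', hb'⟩ := hole_iff.1 hb
      obtain ⟨c', hc'⟩ := hole_iff.1 hc
      have nab : a' ≠ b' := fun h => hab (by rw [← ha', ← hb', h])
      have nac : a' ≠ c' := fun h => hac (by rw [← ha', ← hc', h])
      have nbc : b' ≠ c' := fun h => hbc (by rw [← hb', ← hc', h])
      obtain ⟨B, ⟨hB, m1, m2, m3⟩, hu⟩ := hG.2 a' b' c' nab nac nbc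
      refine ⟨bG x B, ⟨Or.inl ⟨x, B, hB, rfl⟩, mem_bG.2 ⟨a', m1, ha'⟩, mem_bG.2 ⟨b', m2, hb'⟩,
        mem_bG.2 ⟨c', m3, hc'⟩⟩, ?_⟩
      rintro C ⟨hC, k1, k2, k3⟩
      rcases hC with ⟨y, B', hB', rfl⟩ | ⟨B', o, ho, rfl⟩ | ⟨B', D, hD, rfl⟩
      · obtain ⟨a2, e1, e2⟩ := mem_bG.1 k1
        obtain ⟨b2, f1, f2⟩ := mem_bG.1 k2
        obtain ⟨c2, g1, g2⟩ := mem_bG.1 k3
        have hxy : y = x := by
          rcases a' with _ | w
          · rcases b' with _ | w'
            · exact absurd rfl nab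
            · rw [← hb'] at f2
              rcases b2 with _ | w''
              · simp at f2
              · exact (Prod.mk.inj (Option.some.inj f2)).1
          · rw [← ha'] at e2
            rcases a2 with _ | w''
            · simp at e2
            · exact (Prod.mk.inj (Option.some.inj e2)).1
        subst hxy
        rw [← ha'] at e2
        rw [← hb'] at f2
        rw [← hc'] at g2
        have q1 := injG y e2
        have q2 := injG y f2
        have q3 := injG y g2
        subst q1 q2 q3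
        rw [hu B' ⟨hB', e1, f1, g1⟩]
      · exfalso
        have n1 := pj_ne_bO (hFi B') hab k1 k2
        have n2 := pj_ne_bO (hFi B') hac k1 k3
        have n3 := pj_ne_bO (hFi B') hbc k2 k3
        rcases ha with e1 | e1 <;> rcases hb with e2 | e2 <;> rcases hc with e3 | e3
        · exact n1 (e1.trans e2.symm)
        · exact n1 (e1.trans e2.symm)
        · exact n2 (e1.trans e3.symm)
        · exact n3 (e2.trans e3.symm)
        · exact n3 (e2.trans e3.symm)
        · exact n2 (e1.trans e3.symm)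
        · exact n1 (e1.trans e2.symm)
        · exact n1 (e1.trans e2.symm)
      · exfalso
        obtain ⟨p, hp, rfl⟩ := mem_bC.1 k1
        obtain ⟨q, hq, rfl⟩ := mem_bC.1 k2
        obtain ⟨r, hr, rfl⟩ := mem_bC.1 k3
        have hpq : p ≠ q := fun h => hab (by rw [h])
        have hpr : p ≠ r := fun h => hac (by rw [h])
        have hqr : q ≠ r := fun h => hbc (by rw [h])
        exact hE.bad D hD p hp q hq r hr hpq hpr hqr (bad_bC (hGi B') hpq ⟨x, ha, hb, hc⟩)
    · obtain ⟨B, ⟨hB, hs⟩, hu⟩ := claim1 hA hab hac hbc hbad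
      have hOm : ∀ B' : {B : Finset (Option α) // B ∈ 𝓐 ∧ none ∉ B}, ∀ o,
          a ∈ bO (F B') o → b ∈ bO (F B') o → c ∈ bO (F B') o → B'.1 = B := by
        intro B' o ha hb hc
        have hm : ∀ t ∈ bO (F B') o, pj t ∈ B'.1 := by
          intro t ht
          obtain ⟨i, rfl⟩ := mem_bO.1 ht
          exact (hF B' _).2 ⟨i, rfl⟩
        exact hu B'.1 ⟨B'.2.1, hm a ha, hm b hb, hm c hc, Or.inr ⟨pj_ne_bO (hFi B') hab ha hb,
          pj_ne_bO (hFi B') hac ha hc, pj_ne_bO (hFi B') hbc hb hc⟩⟩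
      have hCm : ∀ B' : {B : Finset (Option α) // B ∈ 𝓐 ∧ none ∈ B}, ∀ D,
          a ∈ bC (G B') D → b ∈ bC (G B') D → c ∈ bC (G B') D → B'.1 = B := by
        intro B' D ha hb hc
        have hm : ∀ t ∈ bC (G B') D, pj t ∈ B'.1 := by
          intro t ht
          obtain ⟨p, _, rfl⟩ := mem_bC.1 ht
          rcases p with _ | s
          · exact B'.2.2
          · exact (hGm B' _).2 ⟨s.1, rfl⟩
        exact hu B'.1 ⟨B'.2.1, hm a ha, hm b hb, hm c hc, Or.inl B'.2.2⟩
      have hGb : ∀ y B', a ∈ bG y B' → b ∈ bG y B' → c ∈ bG y B' → False := by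
        intro y B' ha hb hc
        have hm : ∀ t ∈ bG y B', hole y t := by
          intro t ht
          obtain ⟨s, _, rfl⟩ := mem_bG.1 ht
          exact hole_iff.2 ⟨s, rfl⟩
        exact hbad ⟨y, hm a ha, hm b hb, hm c hc⟩
      obtain ⟨s1, s2, s3, s4⟩ := hs
      by_cases hn : none ∈ B
      · let B₀ : {B : Finset (Option α) // B ∈ 𝓐 ∧ none ∈ B} := ⟨B, hB, hn⟩
        have hran : ∀ t : Option (α × W), pj t ∈ B →
            ∃ p, Option.map (Prod.map (G B₀) (id : W → W)) p = t := by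
          intro t ht
          rcases t with _ | u
          · exact ⟨none, rfl⟩
          · obtain ⟨i, hi⟩ := (hGm B₀ u.1).1 ht
            refine ⟨some (i, u.2), ?_⟩
            simp [hi]
        obtain ⟨p, hp⟩ := hran a s1
        obtain ⟨q, hq⟩ := hran b s2
        obtain ⟨r, hr⟩ := hran c s3
        have hpq : p ≠ q := fun e => hab (by rw [← hp, ← hq, e])
        have hpr : p ≠ r := fun e => hac (by rw [← hp, ← hr, e])
        have hqr : q ≠ r := fun e => hbc (by rw [← hq, ← hr, e])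
        have hbad' : ¬ Bad p q r := by
          intro h
          apply hbad
          rw [← hp, ← hq, ← hr]
          exact bad_bC' h
        obtain ⟨D, ⟨hD, d1, d2, d3⟩, hDu⟩ := hE.good p q r hpq hpr hqr hbad'
        refine ⟨bC (G B₀) D, ⟨Or.inr (Or.inr ⟨B₀, D, hD, rfl⟩), mem_bC.2 ⟨p, d1, hp⟩,
          mem_bC.2 ⟨q, d2, hq⟩, mem_bC.2 ⟨r, d3, hr⟩⟩, ?_⟩
        rintro C ⟨hC', ha', hb', hc'⟩
        rcases hC' with ⟨y, B', _, rfl⟩ | ⟨B', o, _, rfl⟩ | ⟨B', D', hD', rfl⟩
        · exact (hGb y B' ha' hb' hc').elim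
        · exfalso
          have e := hOm B' o ha' hb' hc'
          exact B'.2.2 (e ▸ hn)
        · have e : B' = B₀ := Subtype.ext (hCm B' D' ha' hb' hc')
          subst e
          obtain ⟨p', g1, g1'⟩ := mem_bC.1 ha'
          obtain ⟨q', g2, g2'⟩ := mem_bC.1 hb'
          obtain ⟨r', g3, g3'⟩ := mem_bC.1 hc'
          have i1 := injC (hGi _) (g1'.trans hp.symm)
          have i2 := injC (hGi _) (g2'.trans hq.symm)
          have i3 := injC (hGi _) (g3'.trans hr.symm)
          subst i1 i2 i3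
          rw [hDu D' ⟨hD', g1, g2, g3⟩]
      · let B₀ : {B : Finset (Option α) // B ∈ 𝓐 ∧ none ∉ B} := ⟨B, hB, hn⟩
        have hran : ∀ t : Option (α × W), pj t ∈ B →
            ∃ (i : Fin 5) (w : W), some (F B₀ i, w) = t := by
          intro t ht
          rcases t with _ | u
          · exact absurd ht hn
          · obtain ⟨i, hi⟩ := (hF B₀ u.1).1 ht
            refine ⟨i, u.2, ?_⟩
            simp [hi]
        rcases s4 with s4 | ⟨n1, n2, n3⟩
        · exact absurd s4 hn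
        obtain ⟨i, wa, hp⟩ := hran a s1
        obtain ⟨j, wb, hq⟩ := hran b s2
        obtain ⟨k, wc, hr⟩ := hran c s3
        have hij : i ≠ j := fun e => n1 (by rw [← hp, ← hq]; simp [pj, e])
        have hik : i ≠ k := fun e => n2 (by rw [← hp, ← hr]; simp [pj, e])
        have hjk : j ≠ k := fun e => n3 (by rw [← hq, ← hr]; simp [pj, e])
        obtain ⟨o, ⟨ho, o1, o2, o3⟩, hou⟩ := hO i j k hij hik hjk wa wb wc
        refine ⟨bO (F B₀) o, ⟨Or.inr (Or.inl ⟨B₀, o, ho, rfl⟩), mem_bO.2 ⟨i, by rw [o1, hp]⟩,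
          mem_bO.2 ⟨j, by rw [o2, hq]⟩, mem_bO.2 ⟨k, by rw [o3, hr]⟩⟩, ?_⟩
        rintro C ⟨hC', ha', hb', hc'⟩
        rcases hC' with ⟨y, B', _, rfl⟩ | ⟨B', o', ho', rfl⟩ | ⟨B', D', _, rfl⟩
        · exact (hGb y B' ha' hb' hc').elim
        · have e : B' = B₀ := Subtype.ext (hOm B' o' ha' hb' hc')
          subst e
          have conv : ∀ (l : Fin 5) (w : W) (t : Option (α × W)), some (F B₀ l, w) = t →
              t ∈ bO (F B₀) o' → o' l = w := by
            intro l w t ht hm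
            obtain ⟨m, hm⟩ := mem_bO.1 hm
            rw [← ht] at hm
            obtain ⟨h1, h2⟩ := Prod.mk.inj (Option.some.inj hm)
            have := hFi B₀ h1
            rw [← this]; exact h2
          have hoo : o' = o := hou o' ⟨ho', conv i wa a hp ha', conv j wb b hq hb',
            conv k wc c hr hc'⟩
          rw [hoo]
        · exfalso
          have e := hCm B' D' ha' hb' hc'
          exact hn (e ▸ B'.2.2)
  · intro w hw1 hw2 A hA'
    by_cases hn : none ∈ A
    · refine Or.inr (Or.inr ⟨⟨A, hA', hn⟩, _, hw2, ?_⟩)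
      ext t
      rw [mem_bC, Finset.mem_image]
      constructor
      · rintro ⟨s, hs, rfl⟩
        rcases s with _ | x
        · exact ⟨none, Finset.mem_insert_self _ _, rfl⟩
        · obtain ⟨i, hi⟩ := (hGm ⟨A, hA', hn⟩ x).1 hs
          refine ⟨some (i, w), Finset.mem_insert_of_mem (Finset.mem_image.2 ⟨i, Finset.mem_univ _,
            rfl⟩), ?_⟩
          simp [hi]
      · rintro ⟨p, hp, rfl⟩
        rcases Finset.mem_insert.1 hp with rfl | hp
        · exact ⟨none, hn, rfl⟩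
        · obtain ⟨i, _, rfl⟩ := Finset.mem_image.1 hp
          exact ⟨some (G ⟨A, hA', hn⟩ i), (hGm ⟨A, hA', hn⟩ _).2 ⟨i, rfl⟩, rfl⟩
    · refine Or.inr (Or.inl ⟨⟨A, hA', hn⟩, _, hw1, ?_⟩)
      ext t
      rw [mem_bO, Finset.mem_image]
      constructor
      · rintro ⟨s, hs, rfl⟩
        rcases s with _ | x
        · exact absurd hs hn
        · obtain ⟨i, hi⟩ := (hF ⟨A, hA', hn⟩ x).1 hs
          exact ⟨i, by simp [hi]⟩
      · rintro ⟨i, rfl⟩
        exact ⟨some (F ⟨A, hA', hn⟩ i), (hF ⟨A, hA', hn⟩ _).2 ⟨i, rfl⟩, rfl⟩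

end

end Pool.Agent.H367R3.S35P
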