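import Pool.Agent.H367R3.S35.Ing

/-!
The set of all `u` such that there is an `S(3,5,u+1)` and a suitable orthogonal array is closed
under multiplication.
-/

namespace Pool.Agent.H367R3.S35P

open Finset
open Pool.Agent.H816R2.S35 (IsS35 enum5 enum4 transport)

set_option linter.unusedSectionVars false

/-! ### Candelabra systems from Steiner systems -/

theorem canOf {W : Type} [DecidableEq W] (𝓖 : Set (Finset (Option W)))
    (hG : IsS35 (Option W) 𝓖) : ∃ E : Set (Finset (Option (Fin 4 × W))), IsCan E := by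
  classical
  obtain ⟨𝓑, hB, hsub⟩ := prod 𝓖 hG {Finset.univ} isS35_4 O4 isOA4 E4 isCan4
  have hlift : ∀ c : Fin 4, ∀ A ∈ 𝓖, A.image (Option.map fun x => (x, c)) ∈ 𝓑 :=
    fun c A hA => hsub c (const_mem_O4 c) (const_mem_E4 c) A hA
  let sw : Option (W × Fin 4) → Option (Fin 4 × W) := Option.map Prod.swap
  have hsw : Function.Injective sw := Option.map_injective Prod.swap_injective
  have hsurj : ∀ t : Option (Fin 4 × W), ∃ s, sw s = t := by
    intro t
    rcases t with _ | t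
    · exact ⟨none, rfl⟩
    · exact ⟨some t.swap, by simp [sw]⟩
  -- the group of a point
  let gr : Fin 4 → Option (W × Fin 4) → Prop := fun c s => ∃ r : Option W,
    Option.map (fun x => (x, c)) r = s
  have hgr : ∀ (c : Fin 4) (s : Option (W × Fin 4)), gr c s ↔ hole c (sw s) := by
    intro c s
    rcases s with _ | ⟨x, d⟩
    · exact ⟨fun _ => Or.inl rfl, fun _ => ⟨none, rfl⟩⟩
    · constructor
      · rintro ⟨r, hr⟩
        rcases r with _ | r
        · simp at hr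
        · have := (Prod.mk.inj (Option.some.inj hr)).2
          exact Or.inr (by simp [sw, pj, this])
      · rintro (h | h)
        · simp [sw, pj] at h
        · have : d = c := by simpa [sw, pj] using h
          exact ⟨some x, by rw [this]; rfl⟩
  refine ⟨{C' | ∃ C ∈ 𝓑, C' = C.image sw ∧ ¬ ∃ c : Fin 4, ∀ t ∈ C, gr c t}, ⟨?_, ?_, ?_⟩⟩
  · rintro C' ⟨C, hC, rfl, _⟩
    rw [Finset.card_image_of_injective _ hsw]
    exact hB.1 C hC
  · intro a b c hab hac hbc hbad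
    obtain ⟨a0, rfl⟩ := hsurj a
    obtain ⟨b0, rfl⟩ := hsurj b
    obtain ⟨c0, rfl⟩ := hsurj c
    obtain ⟨C, ⟨hC, h1, h2, h3⟩, hu⟩ := hB.2 a0 b0 c0 (fun h => hab (by rw [h]))
      (fun h => hac (by rw [h])) (fun h => hbc (by rw [h]))
    refine ⟨C.image sw, ⟨⟨C, hC, rfl, ?_⟩, Finset.mem_image_of_mem _ h1,
      Finset.mem_image_of_mem _ h2, Finset.mem_image_of_mem _ h3⟩, ?_⟩
    · rintro ⟨c, hc⟩
      exact hbad ⟨c, (hgr c a0).1 (hc a0 h1), (hgr c b0).1 (hc b0 h2), (hgr c c0).1 (hc c0 h3)⟩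
    · rintro C' ⟨⟨D, hD, rfl, _⟩, k1, k2, k3⟩
      have conv : ∀ s, sw s ∈ D.image sw → s ∈ D := by
        intro s hs
        obtain ⟨t, ht, hts⟩ := Finset.mem_image.1 hs
        rw [← hsw hts]; exact ht
      rw [hu D ⟨hD, conv _ k1, conv _ k2, conv _ k3⟩]
  · rintro C' ⟨C, hC, rfl, hng⟩ a ha b hb c hc hab hac hbc ⟨x, hx1, hx2, hx3⟩
    obtain ⟨a0, ha0, rfl⟩ := Finset.mem_image.1 ha
    obtain ⟨b0, hb0, rfl⟩ := Finset.mem_image.1 hb
    obtain ⟨c0, hc0, rfl⟩ := Finset.mem_image.1 hc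
    have nab : a0 ≠ b0 := fun h => hab (by rw [h])
    have nac : a0 ≠ c0 := fun h => hac (by rw [h])
    have nbc : b0 ≠ c0 := fun h => hbc (by rw [h])
    obtain ⟨a1, rfl⟩ := (hgr x a0).2 hx1
    obtain ⟨b1, rfl⟩ := (hgr x b0).2 hx2
    obtain ⟨c1, rfl⟩ := (hgr x c0).2 hx3
    obtain ⟨A, ⟨hA, m1, m2, m3⟩, _⟩ := hG.2 a1 b1 c1 (fun h => nab (by rw [h]))
      (fun h => nac (by rw [h])) (fun h => nbc (by rw [h]))
    obtain ⟨D, _, hu⟩ := hB.2 _ _ _ nab nac nbc
    have e1 := hu C ⟨hC, ha0, hb0, hc0⟩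
    have e2 := hu (A.image (Option.map fun w => (w, x))) ⟨hlift x A hA,
      Finset.mem_image_of_mem _ m1, Finset.mem_image_of_mem _ m2, Finset.mem_image_of_mem _ m3⟩
    apply hng
    refine ⟨x, ?_⟩
    intro t ht
    rw [e1, ← e2] at ht
    obtain ⟨r, _, hr⟩ := Finset.mem_image.1 ht
    exact ⟨r, hr⟩

/-! ### Orthogonal arrays -/

/-- there is an orthogonal array of strength three with five factors over `W` -/
def HasOA (W : Type) : Prop := ∃ O : Set (Fin 5 → W), IsOA O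

theorem HasOA.prod {V W : Type} (hV : HasOA V) (hW : HasOA W) : HasOA (V × W) := by
  obtain ⟨O, hO⟩ := hV
  obtain ⟨P, hP⟩ := hW
  refine ⟨{o | (fun i => (o i).1) ∈ O ∧ (fun i => (o i).2) ∈ P}, ?_⟩
  intro i j k hij hik hjk a b c
  obtain ⟨o, ⟨ho, o1, o2, o3⟩, hou⟩ := hO i j k hij hik hjk a.1 b.1 c.1
  obtain ⟨p, ⟨hp, p1, p2, p3⟩, hpu⟩ := hP i j k hij hik hjk a.2 b.2 c.2
  refine ⟨fun l => (o l, p l), ⟨⟨ho, hp⟩, Prod.ext o1 p1, Prod.ext o2 p2, Prod.ext o3 p3⟩, ?_⟩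
  rintro q ⟨⟨q1, q2⟩, e1, e2, e3⟩
  have h1 := hou _ ⟨q1, by rw [e1], by rw [e2], by rw [e3]⟩
  have h2 := hpu _ ⟨q2, by rw [e1], by rw [e2], by rw [e3]⟩
  funext l
  exact Prod.ext (congrFun h1 l) (congrFun h2 l)

theorem HasOA.congr {V W : Type} (e : V ≃ W) (hV : HasOA V) : HasOA W := by
  obtain ⟨O, hO⟩ := hV
  refine ⟨{o | (fun i => e.symm (o i)) ∈ O}, ?_⟩
  intro i j k hij hik hjk a b c
  obtain ⟨o, ⟨ho, o1, o2, o3⟩, hou⟩ := hO i j k hij hik hjk (e.symm a) (e.symm b) (e.symm c)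
  refine ⟨fun l => e (o l), ⟨?_, ?_, ?_, ?_⟩, ?_⟩
  · show (fun i => e.symm (e (o i))) ∈ O
    simpa using ho
  · show e (o i) = a
    rw [o1]; simp
  · show e (o j) = b
    rw [o2]; simp
  · show e (o k) = c
    rw [o3]; simp
  · rintro q ⟨q1, e1, e2, e3⟩
    have h1 := hou _ ⟨q1, by rw [e1], by rw [e2], by rw [e3]⟩
    funext l
    rw [← congrFun h1 l]; simp

/-- the words of the extended Reed-Solomon code of dimension three -/
def ev {R : Type} [CommRing R] (a : Fin 4 → R) (p : R × R × R) : Fin 5 → R :=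
  fun i => Fin.lastCases (motive := fun _ => R) p.2.2
    (fun i : Fin 4 => p.1 + p.2.1 * a i + p.2.2 * a i ^ 2) i

theorem ev_last {R : Type} [CommRing R] (a : Fin 4 → R) (p : R × R × R) :
    ev a p (Fin.last 4) = p.2.2 := by
  unfold ev
  exact Fin.lastCases_last

theorem ev_cast {R : Type} [CommRing R] (a : Fin 4 → R) (p : R × R × R) (i : Fin 4) :
    ev a p i.castSucc = p.1 + p.2.1 * a i + p.2.2 * a i ^ 2 := by
  unfold ev; simp

theorem cancel {R : Type} [CommRing R] {u x : R} (hu : IsUnit u) (h : u * x = 0) : x = 0 := by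
  rwa [hu.mul_right_eq_zero] at h

theorem ev_inj {R : Type} [CommRing R] (a : Fin 4 → R) (ha : ∀ i j, i ≠ j → IsUnit (a i - a j))
    (i j k : Fin 5) (hij : i ≠ j) (hik : i ≠ k) (hjk : j ≠ k) (p q : R × R × R)
    (h1 : ev a p i = ev a q i) (h2 : ev a p j = ev a q j) (h3 : ev a p k = ev a q k) : p = q := by
  have two : ∀ i j : Fin 4, i ≠ j → p.2.2 = q.2.2 →
      p.1 + p.2.1 * a i + p.2.2 * a i ^ 2 = q.1 + q.2.1 * a i + q.2.2 * a i ^ 2 →
      p.1 + p.2.1 * a j + p.2.2 * a j ^ 2 = q.1 + q.2.1 * a j + q.2.2 * a j ^ 2 → p = q := by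
    intro i j hij hz h1 h2
    have hy : p.2.1 - q.2.1 = 0 := by
      apply cancel (ha i j hij)
      rw [hz] at h1 h2
      linear_combination h1 - h2
    have hy' : p.2.1 = q.2.1 := sub_eq_zero.1 hy
    have hx : p.1 = q.1 := by
      rw [hz, hy'] at h1
      linear_combination h1
    exact Prod.ext hx (Prod.ext hy' hz)
  have three : ∀ i j k : Fin 4, i ≠ j → i ≠ k → j ≠ k →
      p.1 + p.2.1 * a i + p.2.2 * a i ^ 2 = q.1 + q.2.1 * a i + q.2.2 * a i ^ 2 →
      p.1 + p.2.1 * a j + p.2.2 * a j ^ 2 = q.1 + q.2.1 * a j + q.2.2 * a j ^ 2 →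
      p.1 + p.2.1 * a k + p.2.2 * a k ^ 2 = q.1 + q.2.1 * a k + q.2.2 * a k ^ 2 → p = q := by
    intro i j k hij hik hjk h1 h2 h3
    have e1 : (p.2.1 - q.2.1) + (p.2.2 - q.2.2) * (a i + a j) = 0 := by
      apply cancel (ha i j hij)
      linear_combination h1 - h2
    have e2 : (p.2.1 - q.2.1) + (p.2.2 - q.2.2) * (a i + a k) = 0 := by
      apply cancel (ha i k hik)
      linear_combination h1 - h3
    have e3 : p.2.2 - q.2.2 = 0 := by
      apply cancel (ha j k hjk)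
      linear_combination e1 - e2
    exact two i j hij (sub_eq_zero.1 e3) h1 h2
  rcases Fin.eq_castSucc_or_eq_last i with ⟨i', rfl⟩ | rfl <;>
  rcases Fin.eq_castSucc_or_eq_last j with ⟨j', rfl⟩ | rfl <;>
  rcases Fin.eq_castSucc_or_eq_last k with ⟨k', rfl⟩ | rfl
  · rw [ev_cast, ev_cast] at h1 h2 h3
    exact three i' j' k' (fun h => hij (by rw [h])) (fun h => hik (by rw [h]))
      (fun h => hjk (by rw [h])) h1 h2 h3
  · rw [ev_cast, ev_cast] at h1 h2
    rw [ev_last, ev_last] at h3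
    exact two i' j' (fun h => hij (by rw [h])) h3 h1 h2
  · rw [ev_cast, ev_cast] at h1 h3
    rw [ev_last, ev_last] at h2
    exact two i' k' (fun h => hik (by rw [h])) h2 h1 h3
  · exact absurd rfl hjk
  · rw [ev_cast, ev_cast] at h2 h3
    rw [ev_last, ev_last] at h1
    exact two j' k' (fun h => hjk (by rw [h])) h1 h2 h3
  · exact absurd rfl hik
  · exact absurd rfl hij
  · exact absurd rfl hij

theorem hasOA_ring {R : Type} [CommRing R] [Finite R] (a : Fin 4 → R)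
    (ha : ∀ i j, i ≠ j → IsUnit (a i - a j)) : HasOA R := by
  refine ⟨Set.range (ev a), ?_⟩
  intro i j k hij hik hjk A B C
  have hinj : Function.Injective (fun p : R × R × R => (ev a p i, ev a p j, ev a p k)) := by
    intro p q h
    obtain ⟨h1, h2⟩ := Prod.mk.inj h
    obtain ⟨h2, h3⟩ := Prod.mk.inj h2
    exact ev_inj a ha i j k hij hik hjk p q h1 h2 h3
  obtain ⟨p, hp⟩ := (Finite.injective_iff_surjective.1 hinj) (A, B, C)
  obtain ⟨h1, h2⟩ := Prod.mk.inj hp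
  obtain ⟨h2, h3⟩ := Prod.mk.inj h2
  refine ⟨ev a p, ⟨⟨p, rfl⟩, h1, h2, h3⟩, ?_⟩
  rintro o ⟨⟨q, rfl⟩, e1, e2, e3⟩
  rw [ev_inj a ha i j k hij hik hjk q p (e1.trans h1.symm) (e2.trans h2.symm) (e3.trans h3.symm)]

theorem hasOA_field {F : Type} [Field F] [Finite F] (h : 4 ≤ Nat.card F) : HasOA F := by
  have : Fintype F := Fintype.ofFinite F
  rw [Nat.card_eq_fintype_card] at h
  obtain ⟨f⟩ := Function.Embedding.nonempty_of_card_le (α := Fin 4) (β := F) (by simpa using h)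
  exact hasOA_ring f fun i j hij => (sub_ne_zero.2 (fun e => hij (f.injective e))).isUnit

theorem hasOA_pow2 (k : ℕ) (hk : 2 ≤ k) : HasOA (Fin (2 ^ k)) := by
  have h0 : k ≠ 0 := by omega
  have hc : Nat.card (GaloisField 2 k) = 2 ^ k := GaloisField.card 2 k h0
  have : Finite (GaloisField 2 k) := Nat.finite_of_card_ne_zero (by rw [hc]; positivity)
  have h4 : 4 ≤ Nat.card (GaloisField 2 k) := by
    rw [hc]
    calc 4 = 2 ^ 2 := by norm_num
      _ ≤ 2 ^ k := Nat.pow_le_pow_right (by norm_num) hk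
  exact (hasOA_field h4).congr (Finite.equivFinOfCardEq hc)

theorem hasOA_coprime (m : ℕ) (hm : Nat.Coprime m 6) : HasOA (Fin m) := by
  have h0 : m ≠ 0 := by
    rintro rfl
    norm_num at hm
  have : NeZero m := ⟨h0⟩
  have u : ∀ n : ℕ, 0 < n → n < 4 → IsUnit ((n : ℕ) : ZMod m) := by
    intro n hn hn4
    rw [ZMod.isUnit_iff_coprime]
    have h2 : Nat.Coprime m 2 := Nat.Coprime.coprime_dvd_right (by norm_num) hm
    have h3 : Nat.Coprime m 3 := Nat.Coprime.coprime_dvd_right (by norm_num) hm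
    interval_cases n
    · exact Nat.coprime_one_left m
    · exact h2.symm
    · exact h3.symm
  have key : ∀ i j : Fin 4, i < j → IsUnit (((j : ℕ) : ZMod m) - ((i : ℕ) : ZMod m)) := by
    intro i j hij
    have hij' : (i : ℕ) < j := hij
    rw [← Nat.cast_sub hij'.le]
    exact u _ (by omega) (by omega)
  refine (hasOA_ring (R := ZMod m) (fun i => ((i : ℕ) : ZMod m)) ?_).congr
    (ZMod.finEquiv m).symm.toEquiv
  intro i j hij
  rcases lt_or_gt_of_ne hij with h | h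
  · have := (key i j h).neg
    rwa [neg_sub] at this
  · exact key j i h

/-! ### The semigroup -/

/-- there is an `S(3,5,u+1)`, and an orthogonal array with `u` levels -/
def Good (u : ℕ) : Prop := (∃ 𝓑 : Set (Finset (Fin (u + 1))), IsS35 (Fin (u + 1)) 𝓑) ∧
  HasOA (Fin u)

theorem Good.mul {u w : ℕ} (hu : Good u) (hw : Good w) : Good (u * w) := by
  refine ⟨?_, (hu.2.prod hw.2).congr finProdFinEquiv⟩
  obtain ⟨𝓐, hA⟩ := transport (finSuccEquiv u) hu.1
  obtain ⟨𝓖, hG⟩ := transport (finSuccEquiv w) hw.1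
  obtain ⟨O, hO⟩ := hw.2
  obtain ⟨E, hE⟩ := canOf 𝓖 hG
  obtain ⟨𝓑, hB, _⟩ := prod 𝓐 hA 𝓖 hG O hO E hE
  exact transport ((Equiv.optionCongr finProdFinEquiv).trans (finSuccEquiv (u * w)).symm) ⟨𝓑, hB⟩

theorem good_one : Good 1 := by
  refine ⟨⟨∅, ?_, ?_⟩, hasOA_coprime 1 (by norm_num)⟩
  · intro B hB
    exact absurd hB (Set.notMem_empty B)
  · intro a b c hab hac hbc
    exfalso
    omega

end Pool.Agent.H367R3.S35P
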